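import Mathlib

set_option autoImplicit false

namespace Pool.Agent.Results.MP_2a1065_lc.Exponential

open Finset

section defs
variable {U H : Type} [Fintype U] [DecidableEq U] [DecidableEq H]

def Feasible (E : H → U → Prop) (C : H → ℝ) (B : U → ℝ) (j : U) (s : Finset H) : Prop :=
  (∀ i ∈ s, E i j) ∧ ∑ i ∈ s, C i ≤ B j

noncomputable def payoff (q : H → ℝ) (S : U → Finset H) (j : U) : ℝ :=
  ∑ i ∈ S j, q i / ((univ.filter fun k => i ∈ S k).card : ℝ)

def BestResponseMove (E : H → U → Prop) (q C : H → ℝ) (B : U → ℝ) (S S' : U → Finset H) : Prop :=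
  ∃ j, (∀ k, k ≠ j → S' k = S k) ∧ Feasible E C B j (S' j) ∧ payoff q S j < payoff q S' j ∧
    ∀ s, Feasible E C B j s → payoff q (Function.update S j s) j ≤ payoff q S' j

end defs

def gate (x : ℕ → Bool) (j : ℕ) : Bool :=
  if j = 0 then false else if j % 3 = 0 then
    decide ((x (j - 1)).toNat + (x (j - 2)).toNat + (x (j - 3)).toNat < 2) else !x (j - 1)

def G (N : ℕ) (x y : ℕ → Bool) : Prop :=
  ∃ j < N, x j ≠ gate x j ∧ y = Function.update x j (gate x j)

def Pth (N l : ℕ) (x y : ℕ → Bool) : Prop :=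
  ∃ S : ℕ → ℕ → Bool, S 0 = x ∧ S l = y ∧ ∀ t < l, G N (S t) (S (t + 1))

theorem Pth.trans {N l l' : ℕ} {x y z : ℕ → Bool} (h : Pth N l x y) (h' : Pth N l' y z) :
    Pth N (l + l') x z := by
  obtain ⟨S, a, b, c⟩ := h
  obtain ⟨S', a', b', c'⟩ := h'
  refine ⟨fun t => if t < l then S t else S' (t - l), ?_, by simp [b'], fun t ht => ?_⟩
  · dsimp only
    split_ifs with h
    · exact a
    · obtain rfl : l = 0 := by omega
      rw [a', ← b, a]
  · dsimp only
    split_ifs with h1 h2 h2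
    · exact c t h1
    · obtain rfl : l = t + 1 := by omega
      rw [Nat.sub_self, a', ← b]
      exact c t h1
    · omega
    · rw [show t + 1 - l = t - l + 1 by omega]
      exact c' _ (by omega)

theorem Pth.one {N j : ℕ} {x : ℕ → Bool} (hj : j < N) (h : x j ≠ gate x j) :
    Pth N 1 x (Function.update x j (!x j)) := by
  refine ⟨fun t => if t = 0 then x else Function.update x j (!x j), rfl, rfl, fun t ht => ?_⟩
  obtain rfl : t = 0 := by omega
  refine ⟨j, hj, h, ?_⟩
  simp only [if_true] at h ⊢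
  rw [if_neg (by omega)]
  congr 1
  revert h
  cases x j <;> cases gate x j <;> simp

theorem gate_congr {x y : ℕ → Bool} {a j : ℕ} (h : ∀ i, 3 * a ≤ i → i < j → x i = y i)
    (hj : 3 * a < j) : gate x j = gate y j := by
  unfold gate
  rw [h (j - 1) (by omega) (by omega)]
  split_ifs with c d
  · rfl
  · rw [h (j - 2) (by omega) (by omega), h (j - 3) (by omega) (by omega)]
  · rfl

theorem g1 (x : ℕ → Bool) (k : ℕ) : gate x (3 * k + 1) = !x (3 * k) := by
  rw [gate, if_neg (by omega), if_neg (by omega)]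
  rfl

theorem g2 (x : ℕ → Bool) (k : ℕ) : gate x (3 * k + 2) = !x (3 * k + 1) := by
  rw [gate, if_neg (by omega), if_neg (by omega)]
  rfl

theorem g3 (x : ℕ → Bool) (k : ℕ) : gate x (3 * (k + 1)) =
    decide ((x (3 * k + 2)).toNat + (x (3 * k + 1)).toNat + (x (3 * k)).toNat < 2) := by
  rw [gate, if_neg (by omega), if_pos (by omega)]
  rfl

theorem run (L d : ℕ) : ∀ k, k + d = L → ∀ x : ℕ → Bool, x (3 * k) ≠ gate x (3 * k) →
    (∀ i, 3 * k < i → i ≤ 3 * L → x i = gate x i) → ∃ l y, 3 ^ d ≤ l ∧ Pth (3 * L + 1) l x y ∧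
      (∀ i, i < 3 * k → y i = x i) ∧ y (3 * k) = (!x (3 * k)) ∧
      ∀ i, 3 * k < i → i ≤ 3 * L → y i = gate y i := by
  induction d with
  | zero =>
    intro k hk x h _
    exact ⟨1, _, le_rfl, Pth.one (by omega) h, fun i hi => Function.update_of_ne (by omega) _ _,
      by simp, fun i a b => by omega⟩
  | succ d ih =>
    intro k hk x h1 h2
    have st : ∀ (x : ℕ → Bool) j, j < 3 * (k + 1) → x j ≠ gate x j →
        (∀ i, 3 * (k + 1) < i → i ≤ 3 * L → x i = gate x i) →
        x (3 * (k + 1)) ≠ gate (Function.update x j (!x j)) (3 * (k + 1)) →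
        ∃ l y, 3 ^ d ≤ l ∧ Pth (3 * L + 1) l x y ∧ (∀ i, i < 3 * (k + 1) → i ≠ j → y i = x i) ∧
          y j = (!x j) ∧ y (3 * (k + 1)) = (!x (3 * (k + 1))) ∧
          ∀ i, 3 * (k + 1) < i → i ≤ 3 * L → y i = gate y i := by
      intro x j hj a b c
      obtain ⟨l, y, e1, e2, e3, e4, e5⟩ := ih (k + 1) (by omega) (Function.update x j (!x j))
        (by rwa [Function.update_of_ne (by omega)]) fun i u v => by
          rw [Function.update_of_ne (by omega), b i u v]
          exact gate_congr (a := k + 1)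
            (fun i u _ => (Function.update_of_ne (by omega) _ _).symm) u
      exact ⟨1 + l, y, by omega, (Pth.one (by omega) a).trans e2,
        fun i u v => by rw [e3 i u, Function.update_of_ne v], by rw [e3 j hj]; simp,
        by rw [e4, Function.update_of_ne (by omega)], e5⟩
    have b := h2 (3 * k + 1) (by omega) (by omega)
    have c := h2 (3 * k + 2) (by omega) (by omega)
    have f := h2 (3 * (k + 1)) (by omega) (by omega)
    rw [g1] at b
    rw [g2, b] at c
    rw [g3, b, c] at f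
    obtain ⟨l1, y, a1, a2, a3, a4, a5, a6⟩ := st x (3 * k) (by omega) h1
      (fun i u v => h2 i (by omega) v) (by
        rw [g3, Function.update_of_ne (by omega), Function.update_of_ne (by omega),
          Function.update_self, f, b, c]
        cases x (3 * k) <;> simp)
    have yb := a3 (3 * k + 1) (by omega) (by omega)
    have yc := a3 (3 * k + 2) (by omega) (by omega)
    obtain ⟨l2, z, b1, b2, b3, b4, b5, b6⟩ := st y (3 * k + 1) (by omega)
      (by rw [g1, yb, b, a4]; simp) a6 (by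
        rw [g3, Function.update_of_ne (by omega), Function.update_self,
          Function.update_of_ne (by omega), a5, f, yb, yc, a4, b, c]
        cases x (3 * k) <;> simp)
    have za := b3 (3 * k) (by omega) (by omega)
    have zc := b3 (3 * k + 2) (by omega) (by omega)
    obtain ⟨l3, w, c1, c2, c3, c4, c5, c6⟩ := st z (3 * k + 2) (by omega)
      (by rw [g2, zc, yc, c, b4, yb, b]; simp) b6 (by
        rw [g3, Function.update_self, Function.update_of_ne (by omega),
          Function.update_of_ne (by omega), b5, a5, f, zc, b4, za, yb, yc, a4, b, c]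
        cases x (3 * k) <;> simp)
    have wa := c3 (3 * k) (by omega) (by omega)
    have wb := c3 (3 * k + 1) (by omega) (by omega)
    refine ⟨l1 + l2 + l3, w, by rw [pow_succ]; omega, (a2.trans b2).trans c2, fun i hi => by
      rw [c3 i (by omega) (by omega), b3 i (by omega) (by omega), a3 i (by omega) (by omega)],
      by rw [wa, za, a4], fun i u v => ?_⟩
    rcases (by omega : i = 3 * k + 1 ∨ i = 3 * k + 2 ∨ i = 3 * (k + 1) ∨ 3 * (k + 1) < i) with
      rfl | rfl | rfl | t
    · rw [g1, wb, b4, yb, b, wa, za, a4]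
    · rw [g2, c4, zc, yc, c, wb, b4, yb, b]
    · rw [g3, c5, b5, a5, f, c4, zc, yc, c, wb, b4, yb, b, wa, za, a4]
      cases x (3 * k) <;> simp
    · exact c6 i t v

def valid (i t : ℕ) : Prop := t ≠ 0 ∧ t ≤ i ∧ (t = 1 ∨ i % 3 = 0)

instance (i t : ℕ) : Decidable (valid i t) := by unfold valid; infer_instance

variable {N : ℕ}

def Sh (j : Fin N) : Finset (Fin N × Fin 4) :=
  univ.filter fun i => valid i.1 i.2 ∧ (j = i.1 ∨ (j : ℕ) + i.2 = i.1)

def EE (i : Fin N × Fin 4) (j : Fin N) : Prop := i = (j, 0) ∨ i ∈ Sh j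

noncomputable def TT (j : ℕ) : ℝ :=
  (if j = 0 then 1 else if j % 3 = 0 then 19 / 4 else 7 / 4) * (1 / 4) ^ j

noncomputable def qq (i : Fin N × Fin 4) : ℝ := if i.2 = 0 then TT i.1 else 2 * (1 / 4) ^ (i.1 : ℕ)

def CC (i : Fin N × Fin 4) : ℝ := if i.2 = 0 then 4 * N else 1

def stt (x : ℕ → Bool) (j : Fin N) : Finset (Fin N × Fin 4) := if x j then Sh j else {(j, 0)}

theorem qq_pos (i : Fin N × Fin 4) : 0 < qq i := by
  unfold qq TT
  split_ifs <;> positivity

theorem sh0 {j : Fin N} {i : Fin N × Fin 4} (h : i ∈ Sh j) : i.2 ≠ 0 := fun c => by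
  simp [Sh, valid, c] at h

noncomputable def vv (x : ℕ → Bool) (j : Fin N) (i : Fin N × Fin 4) : ℝ :=
  qq i / (1 + ((univ.filter fun k => k ≠ j ∧ i ∈ stt x k).card : ℝ))

theorem pay (x : ℕ → Bool) (j : Fin N) (s : Finset (Fin N × Fin 4)) :
    payoff qq (Function.update (stt x) j s) j = ∑ i ∈ s, vv x j i := by
  simp only [payoff, Function.update_self]
  refine sum_congr rfl fun i hi => ?_
  have : (univ.filter fun k => i ∈ Function.update (stt x) j s k) =
      insert j (univ.filter fun k => k ≠ j ∧ i ∈ stt x k) := by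
    ext k
    by_cases c : k = j <;> simp [c, hi]
  rw [this, card_insert_of_notMem (by simp), vv]
  push_cast
  ring_nf

theorem vv_nonneg (x : ℕ → Bool) (j : Fin N) (i : Fin N × Fin 4) : 0 ≤ vv x j i :=
  div_nonneg (qq_pos i).le (by positivity)

theorem vv_priv (x : ℕ → Bool) (j : Fin N) : vv x j (j, 0) = TT j := by
  have : (univ.filter fun k => k ≠ j ∧ (j, 0) ∈ stt x k) = ∅ := by
    refine filter_eq_empty_iff.2 fun k _ ⟨a, b⟩ => ?_
    unfold stt at b
    split_ifs at b
    · exact sh0 b rfl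
    · exact a (by simpa [eq_comm] using b)
  simp [vv, this, qq]

theorem vv_in (x : ℕ → Bool) (j : Fin N) (t : Fin 4) (h : valid j t) :
    vv x j (j, t) = (2 - ((x (j - t)).toNat : ℝ)) * (1 / 4) ^ (j : ℕ) := by
  have t0 : t ≠ 0 := fun c => h.1 (by simp [c])
  have : (univ.filter fun k => k ≠ j ∧ (j, t) ∈ stt x k) =
      if x (j - t) then {⟨j - t, by omega⟩} else ∅ := by
    have := h.1
    have := h.2.1
    ext k
    by_cases c : (k : ℕ) = j - t
    · have e : (k : ℕ) + t = j := by omega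
      have e' : (k : ℕ) ≠ j := by omega
      cases d : x k <;> simp [stt, Sh, h, t0, ← c, d, Fin.ext_iff, e, e']
    · have e : (k : ℕ) + t ≠ j := by omega
      cases d : x k <;> cases x (j - t) <;> simp [stt, Sh, h, t0, c, d, Fin.ext_iff, e] <;> omega
  rw [vv, this, qq, if_neg t0]
  cases x (j - t) <;> simp <;> ring

theorem bounds (x : ℕ → Bool) (j : Fin N) : ∃ r : ℝ, 0 ≤ r ∧ r ≤ 21 / 32 * (1 / 4) ^ (j : ℕ) ∧
    ∑ i ∈ Sh j, vv x j i = r + ∑ t : Fin 4,
      if valid j t then (2 - ((x (j - t)).toNat : ℝ)) * (1 / 4) ^ (j : ℕ) else 0 := by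
  refine ⟨∑ i ∈ (Sh j).filter fun i => ¬ i.1 = j, vv x j i, sum_nonneg fun _ _ => vv_nonneg _ _ _,
    ?_, ?_⟩
  · have hm : ∀ i ∈ (Sh j).filter fun i => ¬ i.1 = j, i.2 ≠ 0 ∧ (j : ℕ) + i.2 = i.1 := by
      intro i hi
      have := sh0 (mem_filter.1 hi).1
      simp only [Sh, mem_filter, mem_univ, true_and] at hi
      exact ⟨this, hi.1.2.resolve_left fun c => hi.2 c.symm⟩
    calc _ ≤ ∑ i ∈ (Sh j).filter fun i => ¬ i.1 = j,
          (if i.2 = 0 then (0 : ℝ) else 2 * (1 / 4) ^ ((j : ℕ) + i.2)) := by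
          refine sum_le_sum fun i hi => ?_
          rw [if_neg (hm i hi).1, (hm i hi).2, vv, qq, if_neg (hm i hi).1]
          exact div_le_self (by positivity) (by simp)
      _ = ∑ t ∈ ((Sh j).filter fun i => ¬ i.1 = j).image Prod.snd,
          (if t = 0 then (0 : ℝ) else 2 * (1 / 4) ^ ((j : ℕ) + t)) := by
          rw [sum_image fun a ha b hb e => Prod.ext (Fin.ext (by
            rw [← (hm a ha).2, ← (hm b hb).2, e])) e]
      _ ≤ ∑ t : Fin 4, (if t = 0 then (0 : ℝ) else 2 * (1 / 4) ^ ((j : ℕ) + t)) :=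
          sum_le_univ_sum_of_nonneg fun t => by split_ifs <;> positivity
      _ = _ := by
          simp [Fin.sum_univ_four, pow_add]
          ring
  · rw [add_comm, ← sum_filter_add_sum_filter_not (Sh j) (fun i => i.1 = j), ← sum_filter]
    congr 1
    refine sum_nbij' Prod.snd (fun t => (j, t)) ?_ ?_ ?_ ?_ ?_
    · rintro ⟨a, t⟩ h
      simp only [Sh, mem_filter, mem_univ, true_and] at h ⊢
      exact h.2 ▸ h.1.1
    · intro t h
      simpa [Sh] using h
    · rintro ⟨a, t⟩ h
      simp only [mem_filter] at h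
      rw [← h.2]
    · intro t _
      rfl
    · rintro ⟨a, t⟩ h
      simp only [Sh, mem_filter, mem_univ, true_and] at h
      obtain ⟨⟨h, -⟩, rfl⟩ := h
      exact vv_in x _ t h

theorem cmp (x : ℕ → Bool) (j : Fin N) : if gate x j then TT j < ∑ i ∈ Sh j, vv x j i
    else ∑ i ∈ Sh j, vv x j i < TT j := by
  obtain ⟨r, r0, r1, e⟩ := bounds x j
  rw [e, Fin.sum_univ_four, TT, gate]
  have p : (0 : ℝ) < (1 / 4) ^ (j : ℕ) := by positivity
  generalize ((1 : ℝ) / 4) ^ (j : ℕ) = w at *
  by_cases c : (j : ℕ) = 0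
  · simp [valid, c]
    linarith
  by_cases d : (j : ℕ) % 3 = 0
  · have : 3 ≤ (j : ℕ) := by omega
    have a1 : 1 ≤ (j : ℕ) := by omega
    have a2 : 2 ≤ (j : ℕ) := by omega
    simp only [valid, c, d, Fin.val_zero, Fin.val_one, Fin.val_two, show ((3 : Fin 4) : ℕ) = 3 from rfl]
    cases x (j - 1) <;> cases x (j - 2) <;> cases x (j - 3) <;> simp [*] <;> linarith
  · have a1 : 1 ≤ (j : ℕ) := by omega
    simp only [valid, c, d, Fin.val_zero, Fin.val_one, Fin.val_two, show ((3 : Fin 4) : ℕ) = 3 from rfl]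
    cases x (j - 1) <;> simp [*] <;> linarith

theorem feas (x : ℕ → Bool) (j : Fin N) : Feasible EE CC (fun _ => (4 * N : ℝ)) j (stt x j) := by
  unfold stt
  split_ifs
  · refine ⟨fun i hi => .inr hi, ?_⟩
    rw [sum_congr rfl fun i hi => show CC i = 1 from if_neg (sh0 hi)]
    have := card_le_univ (Sh j)
    simp only [Fintype.card_prod, Fintype.card_fin] at this
    simp only [sum_const, nsmul_eq_mul, mul_one]
    exact_mod_cast this.trans_eq (mul_comm _ _)
  · exact ⟨fun i hi => .inl (mem_singleton.1 hi), by simp [CC]⟩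

theorem move {x y : ℕ → Bool} (h : G N x y) :
    BestResponseMove EE qq CC (fun _ : Fin N => (4 * N : ℝ)) (stt x) (stt y) := by
  obtain ⟨j, hj, h1, rfl⟩ := h
  have e : stt (Function.update x j (gate x j)) = Function.update (stt x) (⟨j, hj⟩ : Fin N)
      (if gate x j then Sh ⟨j, hj⟩ else {(⟨j, hj⟩, 0)}) := by
    funext k
    by_cases c : k = ⟨j, hj⟩
    · simp [c, stt]
    · rw [Function.update_of_ne c, stt, stt, Function.update_of_ne fun d => c (Fin.ext d)]
  have k := cmp x ⟨j, hj⟩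
  refine ⟨⟨j, hj⟩, fun k c => by rw [e, Function.update_of_ne c], feas _ _, ?_, fun s hs => ?_⟩
  · rw [← Function.update_eq_self ⟨j, hj⟩ (stt x), pay, e, pay, stt]
    revert h1 k
    dsimp only
    cases x j <;> cases gate x j <;> simp [vv_priv]
  · rw [e, pay, pay]
    have m : ∑ i ∈ s, vv x ⟨j, hj⟩ i ≤ max (TT j) (∑ i ∈ Sh ⟨j, hj⟩, vv x ⟨j, hj⟩ i) := by
      by_cases c : ((⟨j, hj⟩ : Fin N), (0 : Fin 4)) ∈ s
      · have : s = {(⟨j, hj⟩, 0)} := by
          refine eq_singleton_iff_unique_mem.2 ⟨c, fun i hi => by_contra fun d => ?_⟩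
          have u := sum_le_sum_of_subset_of_nonneg (f := CC) (s := {i, (⟨j, hj⟩, 0)}) (t := s)
            (by simp [insert_subset_iff, c, hi]) fun i _ _ => by unfold CC; split_ifs <;> positivity
          rw [sum_pair d, show CC i = 1 from if_neg (sh0 ((hs.1 i hi).resolve_left d))] at u
          have := hs.2
          simp only [CC, if_true] at u this
          linarith
        rw [this, sum_singleton, vv_priv]
        exact le_max_left _ _
      · refine le_trans (sum_le_sum_of_subset_of_nonneg (fun i hi => (hs.1 i hi).resolve_left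
          fun d => c (d ▸ hi)) fun _ _ _ => vv_nonneg _ _ _) (le_max_right _ _)
    refine m.trans ?_
    revert k
    dsimp only
    cases gate x j <;> simp [vv_priv] <;> exact le_of_lt

theorem result : ∃ c : ℝ, 0 < c ∧ ∀ M : ℕ,
    ∃ (U H : Type) (_ : Fintype U) (_ : Fintype H) (_ : DecidableEq U) (_ : DecidableEq H)
      (E : H → U → Prop) (q C : H → ℝ) (B : U → ℝ),
      M ≤ Fintype.card U + Fintype.card H ∧ (∀ i, 0 < q i) ∧ (∀ i, 0 < C i) ∧ (∀ j, 0 < B j) ∧
      ∃ (l : ℕ) (S : ℕ → U → Finset H), (∀ j, Feasible E C B j (S 0 j)) ∧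
        (∀ t, t < l → BestResponseMove E q C B (S t) (S (t + 1))) ∧
        (2 : ℝ) ^ (c * (Fintype.card U + Fintype.card H : ℕ)) ≤ l := by
  refine ⟨1 / 20, by norm_num, fun M => ?_⟩
  have ex : ∃ x : ℕ → Bool, x 0 = true ∧ ∀ i, 0 < i → x i = gate x i := by
    refine ⟨fun i => decide (i % 6 = 0 ∨ i % 6 = 2 ∨ i % 6 = 4), by simp, fun i hi => ?_⟩
    obtain ⟨k, rfl | rfl | rfl⟩ : ∃ k, i = 3 * k + 1 ∨ i = 3 * k + 2 ∨ i = 3 * (k + 1) :=
      ⟨(i - 1) / 3, by omega⟩
    · rw [g1, ← decide_not]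
      exact decide_eq_decide.2 (by omega)
    · rw [g2, ← decide_not]
      exact decide_eq_decide.2 (by omega)
    · rw [g3]
      refine decide_eq_decide.2 ?_
      simp only [Bool.toNat, Bool.cond_decide]
      split_ifs <;> omega
  obtain ⟨x, x0, x1⟩ := ex
  obtain ⟨l, y, h1, ⟨S, s0, -, s1⟩, -⟩ := run (M + 1) (M + 1) 0 (by simp) x (by simp [x0, gate])
    fun i a _ => x1 i a
  refine ⟨Fin (3 * (M + 1) + 1), Fin (3 * (M + 1) + 1) × Fin 4, inferInstance, inferInstance,
    inferInstance, inferInstance, EE, qq, CC, fun _ => (4 * (3 * (M + 1) + 1 : ℕ) : ℝ),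
    by simp; omega, qq_pos, fun i => by unfold CC; split_ifs <;> positivity,
    fun _ => by positivity, l, fun t => stt (S t), feas _, fun t ht => move (s1 t ht), ?_⟩
  calc _ ≤ (2 : ℝ) ^ ((M + 1 : ℕ) : ℝ) := by
        refine Real.rpow_le_rpow_of_exponent_le (by norm_num) ?_
        simp only [Fintype.card_prod, Fintype.card_fin]
        push_cast
        linarith [Nat.cast_nonneg (α := ℝ) M]
    _ ≤ ((3 ^ (M + 1) : ℕ) : ℝ) := by
        rw [Real.rpow_natCast]
        exact_mod_cast Nat.pow_le_pow_left (by norm_num) _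
    _ ≤ l := by exact_mod_cast h1

end Pool.Agent.Results.MP_2a1065_lc.Exponential
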